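import Pool.Agent.H348Z.Box.Leader

set_option autoImplicit false

namespace Pool.Agent.H348Z.Box

open Finset

/-- A family of pairwise disjoint boxes `bs c σ` in `A ^ C`; the box `bs c σ` has side inside `{σ}` at
coordinate `c`, and every line in direction `c` meets a box `bs c σ`. -/
def Gadget (C A : Type) [DecidableEq C] : Prop :=
  ∃ bs : C → A → C → Set A,
    (∀ c σ a, a ∈ bs c σ c → a = σ) ∧
    (∀ c σ c' σ' (x : C → A), (∀ l, x l ∈ bs c σ l) → (∀ l, x l ∈ bs c' σ' l) → c = c') ∧
    (∀ c (x : C → A), ∃ σ, ∀ l, Function.update x c σ l ∈ bs c σ l)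

theorem Gadget.restrict {C C' A : Type} [DecidableEq C] [DecidableEq C'] [Nonempty A]
    (ι : C' → C) (hι : Function.Injective ι) (h : Gadget C A) : Gadget C' A := by
  classical
  obtain ⟨bs, h1, h2, h3⟩ := h
  obtain ⟨a0⟩ := ‹Nonempty A›
  let ext : (C' → A) → C → A := fun y => Function.extend ι y (fun _ => a0)
  have hext1 : ∀ y l, ext y (ι l) = y l := fun y l => hι.extend_apply _ _ _
  have hext2 : ∀ y l, (¬ ∃ l', ι l' = l) → ext y l = a0 := fun y l hl =>
    Function.extend_apply' _ _ _ hl
  refine ⟨fun c σ l => {a | a ∈ bs (ι c) σ (ι l) ∧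
    ∀ m, (¬ ∃ l', ι l' = m) → a0 ∈ bs (ι c) σ m}, ?_, ?_, ?_⟩
  · intro c σ a ha
    exact h1 _ _ _ ha.1
  · intro c σ c' σ' x hx hx'
    apply hι
    have key : ∀ c σ, (∀ l, x l ∈ {a | a ∈ bs (ι c) σ (ι l) ∧
        ∀ m, (¬ ∃ l', ι l' = m) → a0 ∈ bs (ι c) σ m}) → ∀ l, ext x l ∈ bs (ι c) σ l := by
      intro c σ hx l
      by_cases hl : ∃ l', ι l' = l
      · obtain ⟨l', rfl⟩ := hl
        rw [hext1]
        exact (hx l').1
      · rw [hext2 _ _ hl]
        exact (hx c).2 l hl
    exact h2 _ _ _ _ (ext x) (key c σ hx) (key c' σ' hx')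
  · intro c x
    obtain ⟨σ, hσ⟩ := h3 (ι c) (ext x)
    refine ⟨σ, fun l => ⟨?_, ?_⟩⟩
    · have := hσ (ι l)
      by_cases hl : l = c
      · subst hl
        simpa using this
      · rw [Function.update_of_ne (fun h => hl (hι h)), hext1] at this
        rwa [Function.update_of_ne hl]
    · intro m hm
      have := hσ m
      rw [Function.update_of_ne (fun h => hm ⟨c, h.symm⟩), hext2 _ _ hm] at this
      exact this

/-- The gadget from an abstract leader election scheme (the construction of the starting file S08592). -/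
theorem gadget_of_leader {Base Ev : Type} (q G s : ℕ) (hq : 1 ≤ q) (hs : G * q ≤ s)
    (dom : Base → Base → Prop)
    (hA : ∀ b b', dom b b' → dom b' b → False)
    (hB : ∀ (w : Fin q → Base) (i : Fin q), ∃ b, ∀ t, t ≠ i → dom b (w t))
    (side : Ev → Fin q → Base → Prop) (i0 : Ev → Fin q)
    (hE1 : ∀ D (w : Fin q → Base), (∀ t, side D t (w t)) →
      ∀ j, (∀ t, t ≠ j → dom (w j) (w t)) → j = i0 D)
    (hE2 : ∀ w : Fin q → Base, ∃ D, ∀ t, side D t (w t)) :
    Gadget (Fin G × Fin q) (Base × Fin s × (Fin G → Fin s) × (Fin G → Ev)) := by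
  classical
  let A := Base × Fin s × (Fin G → Fin s) × (Fin G → Ev)
  let bs : Fin G × Fin q → A → Fin G × Fin q → Set A := fun c σ l =>
    {x | (l = c → x = σ) ∧ (l ≠ c → l.1 = c.1 → dom σ.1 x.1) ∧
      (l.1 ≠ c.1 → side (σ.2.2.2 l.1) l.2 x.1 ∧ x.2.2.1 c.1 ≠ σ.2.1 ∧
        (l.2 = i0 (σ.2.2.2 l.1) → x.2.1 = σ.2.2.1 l.1))}
  refine ⟨bs, fun c σ a ha => ha.1 rfl, ?_, ?_⟩
  · intro c σ c' σ' x hx1 hx1'
    have hc : x c = σ := (hx1 c).1 rfl
    have hc' : x c' = σ' := (hx1' c').1 rfl
    by_contra h1
    by_cases h2 : c.1 = c'.1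
    · have e1 : dom σ.1 (x c').1 := (hx1 c').2.1 (fun h => h1 h.symm) h2.symm
      have e2 : dom σ'.1 (x c).1 := (hx1' c).2.1 h1 h2
      rw [hc'] at e1
      rw [hc] at e2
      exact hA _ _ e1 e2
    · have e1 := fun t : Fin q => (hx1 (c'.1, t)).2.2 (fun h => h2 h.symm)
      have hlead : c'.2 = i0 (σ.2.2.2 c'.1) := by
        apply hE1 (σ.2.2.2 c'.1) (fun t => (x (c'.1, t)).1) (fun t => (e1 t).1)
        intro t ht
        have e2 := (hx1' (c'.1, t)).2.1 (fun h => ht (by rw [← h])) rfl
        have : x (c'.1, c'.2) = σ' := hc'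
        show dom (x (c'.1, c'.2)).1 (x (c'.1, t)).1
        rw [this]
        exact e2
      have e3 := (e1 c'.2).2.2 hlead
      have e4 := ((hx1' c).2.2 h2).2.1
      have : x (c'.1, c'.2) = σ' := hc'
      rw [this] at e3
      rw [hc] at e4
      exact e4 e3.symm
  · intro c x
    obtain ⟨b, hb⟩ := hB (fun t => (x (c.1, t)).1) c.2
    choose D hD using fun h : Fin G => hE2 (fun t => (x (h, t)).1)
    let f : Fin G → Fin s := fun h => (x (h, i0 (D h))).2.1
    let bad : Finset (Fin s) := ((Finset.univ : Finset (Fin G × Fin q)).erase c).image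
      (fun l => (x l).2.2.1 c.1)
    have hbad : bad.card < s := by
      have h1 : bad.card ≤ ((Finset.univ : Finset (Fin G × Fin q)).erase c).card :=
        Finset.card_image_le
      have h2 := Finset.card_erase_lt_of_mem (Finset.mem_univ c)
      have h4 : (Finset.univ : Finset (Fin G × Fin q)).card = G * q := by simp
      omega
    have hcompl : 0 < badᶜ.card := by
      rw [Finset.card_compl, Fintype.card_fin]
      omega
    obtain ⟨e, he⟩ := Finset.card_pos.mp hcompl
    refine ⟨(b, e, f, D), fun l => ?_⟩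
    rw [Finset.mem_compl] at he
    by_cases hl : l = c
    · subst hl
      rw [Function.update_self]
      refine ⟨fun _ => rfl, fun h => absurd rfl h, fun h => absurd rfl h⟩
    · rw [Function.update_of_ne hl]
      refine ⟨fun h => absurd h hl, ?_, ?_⟩
      · intro _ h2
        have ht : l.2 ≠ c.2 := by
          intro h3
          exact hl (Prod.ext h2 h3)
        have := hb l.2 ht
        have hl' : l = (c.1, l.2) := Prod.ext h2 rfl
        rw [hl']
        exact this
      · intro h2
        refine ⟨hD l.1 l.2, ?_, ?_⟩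
        · intro h3
          apply he
          show e ∈ bad
          simp only [bad]
          rw [Finset.mem_image]
          exact ⟨l, by simpa using hl, h3⟩
        · intro h3
          show (x l).2.1 = (x (l.1, i0 (D l.1))).2.1
          have : l = (l.1, i0 (D l.1)) := Prod.ext rfl h3
          conv_lhs => rw [this]

/-- The conclusion of the problem for a partition `P`. -/
def GoodPart (d n k : ℕ) (P : Finset (Fin d → Finset (Fin n))) : Prop :=
  (∀ B ∈ P, ∀ i : Fin d, (B i).Nonempty) ∧
  (∀ x : Fin d → Fin n, ∃! B, B ∈ P ∧ ∀ i : Fin d, x i ∈ B i) ∧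
  (∀ i : Fin d, ∀ a : Fin d → Fin n,
    k ≤ (P.filter (fun B => ∃ t : Fin n, ∀ j : Fin d,
      Function.update a i t j ∈ B j)).card)

theorem part_of_label {d n k : ℕ} {Λ : Type} [Fintype Λ] (F : (Fin d → Fin n) → Λ)
    (Bx : Λ → Fin d → Finset (Fin n))
    (key : ∀ x z, (∀ l, z l ∈ Bx (F x) l) ↔ F z = F x)
    (hp : ∀ i a, ∃ g : Fin k → Fin n,
      Function.Injective (fun t => F (Function.update a i (g t)))) :
    ∃ P, GoodPart d n k P ∧ P.card ≤ Fintype.card Λ := by
  classical
  have hinj : ∀ x y, Bx (F x) = Bx (F y) → F x = F y := by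
    intro x y h
    apply (key y x).1
    rw [← h]
    exact (key x x).2 rfl
  refine ⟨Finset.univ.image (fun x => Bx (F x)), ⟨?_, ?_, ?_⟩, ?_⟩
  · intro B hB i
    obtain ⟨x, -, rfl⟩ := Finset.mem_image.1 hB
    exact ⟨x i, (key x x).2 rfl i⟩
  · intro x
    refine ⟨Bx (F x), ⟨Finset.mem_image.2 ⟨x, Finset.mem_univ _, rfl⟩, (key x x).2 rfl⟩, ?_⟩
    rintro B ⟨hB, hx⟩
    obtain ⟨y, -, rfl⟩ := Finset.mem_image.1 hB
    rw [(key y x).1 hx]
  · intro i a
    obtain ⟨g, hg⟩ := hp i a
    have : (Finset.univ : Finset (Fin k)).card ≤ _ :=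
      Finset.card_le_card_of_injOn (t := (Finset.univ.image (fun x => Bx (F x))).filter
        (fun B => ∃ t : Fin n, ∀ j : Fin d, Function.update a i t j ∈ B j))
        (fun t => Bx (F (Function.update a i (g t)))) ?_ ?_
    · simpa using this
    · intro t _
      rw [Finset.mem_coe, Finset.mem_filter]
      exact ⟨Finset.mem_image.2 ⟨_, Finset.mem_univ _, rfl⟩, g t, (key _ _).2 rfl⟩
    · intro t _ t' _ h
      exact hg (hinj _ _ h)
  · have : (Finset.univ.image (fun x => Bx (F x))) ⊆ Finset.univ.image Bx := by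
      intro B hB
      obtain ⟨x, -, rfl⟩ := Finset.mem_image.1 hB
      exact Finset.mem_image.2 ⟨F x, Finset.mem_univ _, rfl⟩
    refine (Finset.card_le_card this).trans (Finset.card_image_le.trans ?_)
    simp

/-- Blow-up: every symbol is replaced by `k` copies, every gadget box is cut into `k` slabs in its own direction,
and the uncovered points of `A ^ d` become single boxes. -/
theorem part_of_gadget {d : ℕ} {A : Type} [Fintype A] [Nonempty A] (h : Gadget (Fin d) A)
    (k n : ℕ) (hk : 1 ≤ k) (hn : Fintype.card A * k ≤ n) :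
    ∃ P, GoodPart d n k P ∧ P.card ≤ d * Fintype.card A * k + Fintype.card A ^ d := by
  classical
  obtain ⟨bs, h1, h2, h3⟩ := h
  haveI : Nonempty (Fin k) := ⟨⟨0, hk⟩⟩
  obtain ⟨φ, hφ⟩ : ∃ φ : Fin n → A × Fin k, Function.Surjective φ := by
    have h' : Fintype.card (A × Fin k) ≤ Fintype.card (Fin n) := by simpa using hn
    obtain ⟨e⟩ := Function.Embedding.nonempty_of_card_le h'
    exact ⟨Function.invFun e, Function.invFun_surjective e.injective⟩
  let cov : (Fin d → Fin n) → Fin d → Prop := fun x c =>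
    ∀ l, (φ (x l)).1 ∈ bs c (φ (x c)).1 l
  have hcov : ∀ x c c', cov x c → cov x c' → c = c' := fun x c c' hc hc' =>
    h2 _ _ _ _ (fun l => (φ (x l)).1) hc hc'
  let F : (Fin d → Fin n) → (Fin d × A × Fin k) ⊕ (Fin d → A) := fun x =>
    if hx : ∃ c, cov x c then Sum.inl (hx.choose, φ (x hx.choose))
    else Sum.inr (fun l => (φ (x l)).1)
  have hF1 : ∀ x c, cov x c → F x = Sum.inl (c, φ (x c)) := by
    intro x c hc
    have hx : ∃ c, cov x c := ⟨c, hc⟩
    have : hx.choose = c := hcov x _ _ hx.choose_spec hc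
    simp only [F, dif_pos hx, this]
  have hF2 : ∀ x, (¬ ∃ c, cov x c) → F x = Sum.inr (fun l => (φ (x l)).1) := by
    intro x hx
    simp only [F, dif_neg hx]
  let Bx : (Fin d × A × Fin k) ⊕ (Fin d → A) → Fin d → Finset (Fin n) := fun lam l =>
    match lam with
    | Sum.inl u => Finset.univ.filter
        (fun a => (φ a).1 ∈ bs u.1 u.2.1 l ∧ (l = u.1 → (φ a).2 = u.2.2))
    | Sum.inr y => Finset.univ.filter (fun a => (φ a).1 = y l)
  have hcard : Fintype.card ((Fin d × A × Fin k) ⊕ (Fin d → A))
      = d * Fintype.card A * k + Fintype.card A ^ d := by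
    simp [mul_assoc]
  rw [← hcard]
  refine part_of_label F Bx ?_ ?_
  · intro x z
    by_cases hx : ∃ c, cov x c
    · obtain ⟨c, hc⟩ := hx
      rw [hF1 x c hc]
      simp only [Bx, Finset.mem_filter, Finset.mem_univ, true_and]
      constructor
      · intro hz
        have e1 : (φ (z c)).1 = (φ (x c)).1 := h1 _ _ _ (hz c).1
        have e2 : φ (z c) = φ (x c) := Prod.ext e1 ((hz c).2 rfl)
        have hzc : cov z c := by
          intro l
          rw [e1]
          exact (hz l).1
        rw [hF1 z c hzc, e2]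
      · intro hz
        by_cases hz' : ∃ c, cov z c
        · obtain ⟨c', hc'⟩ := hz'
          rw [hF1 z c' hc'] at hz
          have e := Sum.inl.inj hz
          have e1 : c' = c := congrArg Prod.fst e
          subst e1
          have e2 : φ (z c') = φ (x c') := congrArg Prod.snd e
          intro l
          refine ⟨?_, ?_⟩
          · rw [← e2]
            exact hc' l
          · rintro rfl
            rw [e2]
        · rw [hF2 z hz'] at hz
          exact absurd hz (by simp)
    · rw [hF2 x hx]
      simp only [Bx, Finset.mem_filter, Finset.mem_univ, true_and]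
      constructor
      · intro hz
        have hz' : ¬ ∃ c, cov z c := by
          rintro ⟨c, hc⟩
          apply hx
          refine ⟨c, fun l => ?_⟩
          rw [← hz l, ← hz c]
          exact hc l
        rw [hF2 z hz']
        congr 1
        funext l
        exact hz l
      · intro hz
        by_cases hz' : ∃ c, cov z c
        · obtain ⟨c', hc'⟩ := hz'
          rw [hF1 z c' hc'] at hz
          exact absurd hz (by simp)
        · rw [hF2 z hz'] at hz
          exact fun l => congrFun (Sum.inr.inj hz) l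
  · intro i a
    obtain ⟨σ, hσ⟩ := h3 i (fun l => (φ (a l)).1)
    choose g hg using fun t : Fin k => hφ (σ, t)
    have hc : ∀ t, cov (Function.update a i (g t)) i := by
      intro t l
      rw [Function.update_self, hg]
      have := hσ l
      by_cases hl : l = i
      · subst hl
        rw [Function.update_self] at this ⊢
        rw [hg]
        exact this
      · rw [Function.update_of_ne hl] at this ⊢
        exact this
    refine ⟨g, fun t t' htt => ?_⟩
    simp only at htt
    rw [hF1 _ i (hc t), hF1 _ i (hc t'), Function.update_self, Function.update_self, hg, hg] at htt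
    have e := Sum.inl.inj htt
    exact congrArg (fun u => u.2.2) e

end Pool.Agent.H348Z.Box
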