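/- Leader election gadget: the lemmas below are copied unchanged from the starting file `Pool/Agent/S08592.lean`. -/
import Mathlib

set_option autoImplicit false

namespace Pool.Agent.H348Z.Box

open Finset

/-- The class relation: at the first comparable digit, the digit of `c` is one more. -/
def R {p k : ℕ} (c z : Fin k → ZMod p) : Prop :=
  ∃ l : Fin k, (∀ m : Fin k, m < l → c m ≠ z m + 1 ∧ z m ≠ c m + 1) ∧ c l = z l + 1

theorem R_antisymm {p k : ℕ} [Fact p.Prime] (hp : p ≠ 2) (c z : Fin k → ZMod p) :
    R c z → R z c → False := by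
  rintro ⟨l, h1, h2⟩ ⟨l', h1', h2'⟩
  rcases lt_trichotomy l l' with h | h | h
  · exact (h1' l h).2 h2
  · subst h
    rw [h2'] at h2
    have h3 : (2 : ZMod p) = 0 := by linear_combination -h2
    have h4 : ((2 : ℕ) : ZMod p) = 0 := by exact_mod_cast h3
    rw [ZMod.natCast_eq_zero_iff] at h4
    have h5 := (Nat.prime_dvd_prime_iff_eq (Fact.out : p.Prime) Nat.prime_two).mp h4
    exact hp h5
  · exact (h1 l' h).2 h2'

/-- a set of residues that is neither empty nor everything has an exit under `+2`. -/
theorem exists_digit {p : ℕ} [Fact p.Prime] (hp : p ≠ 2) (P : Finset (ZMod p)) (hP : P.Nonempty)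
    (hcard : P.card < p) : ∃ a : ZMod p, a - 1 ∈ P ∧ a + 1 ∉ P := by
  classical
  by_contra hcon
  push Not at hcon
  have hstep : ∀ b ∈ P, b + 2 ∈ P := by
    intro b hb
    have := hcon (b + 1) (by simpa using hb)
    have e : b + 1 + 1 = b + 2 := by ring
    rwa [e] at this
  have hstepn : ∀ n : ℕ, ∀ b ∈ P, b + 2 * (n : ZMod p) ∈ P := by
    intro n
    induction n with
    | zero => intro b hb; simpa using hb
    | succ n ih =>
      intro b hb
      have := hstep _ (ih b hb)
      have e : b + 2 * (n : ZMod p) + 2 = b + 2 * ((n + 1 : ℕ) : ZMod p) := by push_cast; ring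
      rwa [e] at this
  have h2 : (2 : ZMod p) ≠ 0 := by
    intro h3
    have h4 : ((2 : ℕ) : ZMod p) = 0 := by exact_mod_cast h3
    rw [ZMod.natCast_eq_zero_iff] at h4
    exact hp ((Nat.prime_dvd_prime_iff_eq (Fact.out : p.Prime) Nat.prime_two).mp h4)
  obtain ⟨b, hb⟩ := hP
  have hall : ∀ u : ZMod p, u ∈ P := by
    intro u
    have := hstepn ((u - b) / 2 : ZMod p).val b hb
    rw [ZMod.natCast_zmod_val] at this
    have e : b + 2 * ((u - b) / 2) = u := by
      field_simp
      ring
    rwa [e] at this
  have h3 : P = Finset.univ := Finset.eq_univ_iff_forall.mpr hall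
  rw [h3, Finset.card_univ, ZMod.card] at hcard
  exact lt_irrefl _ hcard

/-- Schütte property. -/
theorem schutte {p : ℕ} [Fact p.Prime] (hp : p ≠ 2) (k : ℕ) :
    k < p → ∀ T : Finset (Fin k → ZMod p), T.card ≤ k → ∃ c, ∀ z ∈ T, R c z := by
  classical
  induction k with
  | zero =>
    intro _ T hT
    have : T = ∅ := Finset.card_eq_zero.mp (Nat.le_zero.mp hT)
    subst this
    exact ⟨fun _ => 0, fun z hz => absurd hz (Finset.notMem_empty _)⟩
  | succ k ih =>
    intro hk T hT
    rcases T.eq_empty_or_nonempty with rfl | hne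
    · exact ⟨fun _ => 0, fun z hz => absurd hz (Finset.notMem_empty _)⟩
    · obtain ⟨a, ha1, ha2⟩ := exists_digit hp (T.image (fun z => z 0)) (hne.image _)
        (lt_of_le_of_lt (Finset.card_image_le.trans hT) hk)
      rw [Finset.mem_image] at ha1
      obtain ⟨z0, hz0, hz0a⟩ := ha1
      have ha2' : ∀ z ∈ T, z 0 ≠ a + 1 := by
        intro z hz h
        exact ha2 (Finset.mem_image.mpr ⟨z, hz, h⟩)
      let T' := (T.filter (fun z => z 0 ≠ a - 1)).image (fun z => Fin.tail z)
      have hT' : T'.card ≤ k := by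
        have h1 : T'.card ≤ (T.filter (fun z => z 0 ≠ a - 1)).card := Finset.card_image_le
        have h2 : (T.filter (fun z => z 0 ≠ a - 1)).card < T.card := by
          apply Finset.card_lt_card
          rw [Finset.filter_ssubset]
          exact ⟨z0, hz0, by simpa using hz0a⟩
        omega
      obtain ⟨c', hc'⟩ := ih (by omega) T' hT'
      refine ⟨Fin.cons a c', ?_⟩
      intro z hz
      by_cases h0 : z 0 = a - 1
      · refine ⟨0, fun m hm => absurd hm (Fin.not_lt_zero m), ?_⟩
        rw [Fin.cons_zero, h0]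
        ring
      · have hmem : Fin.tail z ∈ T' :=
          Finset.mem_image.mpr ⟨z, Finset.mem_filter.mpr ⟨hz, h0⟩, rfl⟩
        obtain ⟨l, h1, h2⟩ := hc' _ hmem
        refine ⟨l.succ, ?_, ?_⟩
        · intro m hm
          refine Fin.cases ?_ ?_ m hm
          · intro _
            rw [Fin.cons_zero]
            refine ⟨?_, ha2' z hz⟩
            intro h
            apply h0
            rw [h]
            ring
          · intro m' hm'
            rw [Fin.cons_succ]
            have := h1 m' (Fin.succ_lt_succ_iff.mp hm')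
            exact this
        · rw [Fin.cons_succ]
          exact h2

/-- Domination: among a finite set of size `< 2^r`, `r` picks kill all but the last pick. -/
theorem dominating {V : Type} [DecidableEq V] (K : V → V → Prop)
    (hK : ∀ t j, t ≠ j → K t j ∨ K j t) (r : ℕ) :
    ∀ T : Finset V, T.Nonempty → T.card < 2 ^ r →
      ∃ (L : Fin r → V) (i0 : V), i0 ∈ T ∧ (∃ m, L m = i0) ∧
        ∀ j ∈ T, j ≠ i0 → ∃ m, L m ≠ j ∧ K (L m) j := by
  classical
  induction r with
  | zero =>
    intro T hT hc
    have h1 := hT.card_pos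
    rw [pow_zero] at hc
    omega
  | succ r ih =>
    intro T hT hc
    -- averaging
    obtain ⟨t, ht, htc⟩ : ∃ t ∈ T, 2 * (T.filter (fun j => t ≠ j ∧ ¬ K t j)).card ≤ T.card - 1 := by
      by_contra hcon
      push Not at hcon
      let A := T.offDiag.filter (fun x => ¬ K x.1 x.2)
      let B := T.offDiag.filter (fun x => ¬ K x.2 x.1)
      have hdisj : Disjoint A B := by
        rw [Finset.disjoint_left]
        intro x hx hx'
        have h1 := (Finset.mem_filter.mp hx)
        have h2 := (Finset.mem_filter.mp hx')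
        have h3 := (Finset.mem_offDiag.mp h1.1).2.2
        rcases hK x.1 x.2 h3 with h | h
        · exact h1.2 h
        · exact h2.2 h
      have hAB : A.card = B.card := by
        apply Finset.card_bij (fun x _ => x.swap)
        · intro x hx
          have h1 := (Finset.mem_filter.mp hx)
          have h3 := (Finset.mem_offDiag.mp h1.1)
          refine Finset.mem_filter.mpr ⟨Finset.mem_offDiag.mpr ⟨h3.2.1, h3.1, h3.2.2.symm⟩, h1.2⟩
        · intro x _ y _ h
          exact Prod.swap_injective h
        · intro x hx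
          have h1 := (Finset.mem_filter.mp hx)
          have h3 := (Finset.mem_offDiag.mp h1.1)
          refine ⟨x.swap, Finset.mem_filter.mpr ⟨Finset.mem_offDiag.mpr ⟨h3.2.1, h3.1, h3.2.2.symm⟩, h1.2⟩, ?_⟩
          exact Prod.swap_swap x
      have hsum : A.card = ∑ t ∈ T, (T.filter (fun j => t ≠ j ∧ ¬ K t j)).card := by
        have h1 : A = (T ×ˢ T).filter (fun x => x.1 ≠ x.2 ∧ ¬ K x.1 x.2) := by
          ext x
          simp only [A, Finset.mem_filter, Finset.mem_offDiag, Finset.mem_product]
          tauto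
        rw [h1, Finset.card_filter, Finset.sum_product]
        apply Finset.sum_congr rfl
        intro t _
        rw [Finset.card_filter]
      have hle : A.card + B.card ≤ T.card * T.card - T.card := by
        rw [← Finset.card_union_of_disjoint hdisj, ← Finset.offDiag_card]
        apply Finset.card_le_card
        intro x hx
        rcases Finset.mem_union.mp hx with h | h
        · exact (Finset.mem_filter.mp h).1
        · exact (Finset.mem_filter.mp h).1
      have hge : T.card * T.card ≤ 2 * A.card := by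
        rw [hsum, Finset.mul_sum]
        calc T.card * T.card = ∑ t ∈ T, T.card := by simp
          _ ≤ _ := by
            apply Finset.sum_le_sum
            intro t ht
            have := hcon t ht
            omega
      have hpos := hT.card_pos
      have : T.card * T.card ≥ T.card * 1 := Nat.mul_le_mul_left _ hpos
      omega
    let T' := T.filter (fun j => t ≠ j ∧ ¬ K t j)
    have hT'c : T'.card < 2 ^ r := by
      have : 2 ^ (r + 1) = 2 * 2 ^ r := by ring
      have hpos := hT.card_pos
      show (T.filter (fun j => t ≠ j ∧ ¬ K t j)).card < 2 ^ r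
      omega
    rcases T'.eq_empty_or_nonempty with h0 | hne
    · refine ⟨fun _ => t, t, ht, ⟨0, rfl⟩, ?_⟩
      intro j hj hjt
      refine ⟨0, fun h => hjt h.symm, ?_⟩
      by_contra hK'
      have : j ∈ T' := Finset.mem_filter.mpr ⟨hj, fun h => hjt h.symm, hK'⟩
      rw [h0] at this
      exact Finset.notMem_empty _ this
    · obtain ⟨L, i0, hi0, ⟨m0, hm0⟩, hL⟩ := ih T' hne hT'c
      have hi0' := Finset.mem_filter.mp hi0
      refine ⟨Fin.cons t L, i0, hi0'.1, ⟨m0.succ, by rw [Fin.cons_succ]; exact hm0⟩, ?_⟩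
      intro j hj hji
      by_cases hjt : j = t
      · subst hjt
        refine ⟨m0.succ, ?_, ?_⟩
        · rw [Fin.cons_succ, hm0]
          exact fun h => hji h.symm
        · rw [Fin.cons_succ, hm0]
          rcases hK j i0 hji with h | h
          · exact absurd h hi0'.2.2
          · exact h
      · by_cases hKt : K t j
        · refine ⟨0, ?_, ?_⟩
          · rw [Fin.cons_zero]
            exact fun h => hjt h.symm
          · rw [Fin.cons_zero]
            exact hKt
        · obtain ⟨m, hm1, hm2⟩ := hL j (Finset.mem_filter.mpr ⟨hj, fun h => hjt h.symm, hKt⟩) hji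
          refine ⟨m.succ, ?_, ?_⟩
          · rw [Fin.cons_succ]; exact hm1
          · rw [Fin.cons_succ]; exact hm2

/-- polynomial hash -/
def hash {p k : ℕ} (y : ZMod p) (c : Fin k → ZMod p) : ZMod p := ∑ l : Fin k, c l * y ^ (l : ℕ)

theorem hash_coll {p k : ℕ} [Fact p.Prime] (c z : Fin k → ZMod p) (h : c ≠ z) :
    (Finset.univ.filter (fun y : ZMod p => hash y c = hash y z)).card ≤ k := by
  classical
  by_contra hcon
  push Not at hcon
  apply h
  let P : Polynomial (ZMod p) := ∑ l : Fin k, Polynomial.C (c l - z l) * Polynomial.X ^ (l : ℕ)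
  have hdeg : P.degree < (k : ℕ) := by
    refine lt_of_le_of_lt (Polynomial.degree_sum_le _ _) ?_
    rw [Finset.sup_lt_iff (by exact WithBot.bot_lt_coe k)]
    intro l _
    refine lt_of_le_of_lt (Polynomial.degree_C_mul_X_pow_le _ _) ?_
    exact_mod_cast l.2
  have hzero : P = 0 := by
    apply Polynomial.eq_zero_of_degree_lt_of_eval_finset_eq_zero
      (Finset.univ.filter (fun y : ZMod p => hash y c = hash y z))
    · exact lt_trans hdeg (by exact_mod_cast hcon)
    · intro y hy
      have h1 := (Finset.mem_filter.mp hy).2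
      simp only [hash] at h1
      simp only [P, Polynomial.eval_finsetSum, Polynomial.eval_mul, Polynomial.eval_C, Polynomial.eval_pow,
        Polynomial.eval_X, sub_mul, Finset.sum_sub_distrib]
      rw [h1, sub_self]
  funext l
  have h2 : P.coeff (l : ℕ) = c l - z l := by
    simp only [P, Polynomial.finsetSum_coeff, Polynomial.coeff_C_mul_X_pow]
    rw [Finset.sum_eq_single l]
    · simp
    · intro b _ hb
      rw [if_neg]
      intro h
      exact hb (Fin.ext h.symm)
    · intro h
      exact absurd (Finset.mem_univ _) h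
  rw [hzero, Polynomial.coeff_zero] at h2
  exact (sub_eq_zero.mp h2.symm)

/-- Base symbols: a class and a list of `k` classes. -/
abbrev Base (p k : ℕ) := (Fin k → ZMod p) × (Fin k → (Fin k → ZMod p))

/-- the set of classes dominated by a base symbol -/
def Im {p k : ℕ} (b : Base p k) (z : Fin k → ZMod p) : Prop := (∃ m, b.2 m = z) ∧ R b.1 z

def dom {p k : ℕ} (b b' : Base p k) : Prop := Im b b'.1

theorem dom_antisymm {p k : ℕ} [Fact p.Prime] (hp : p ≠ 2) (b b' : Base p k) :
    dom b b' → dom b' b → False := fun h1 h2 => R_antisymm hp _ _ h1.2 h2.2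

theorem dom_exists {p k : ℕ} [Fact p.Prime] (hp : p ≠ 2) (hk : k < p)
    (w : Fin (k + 1) → Base p k) (i : Fin (k + 1)) : ∃ b, ∀ t, t ≠ i → dom b (w t) := by
  classical
  obtain ⟨c, hc⟩ := schutte hp k hk (Finset.univ.image (fun m : Fin k => (w (i.succAbove m)).1))
    (by
      refine Finset.card_image_le.trans ?_
      simp)
  refine ⟨(c, fun m => (w (i.succAbove m)).1), ?_⟩
  intro t ht
  obtain ⟨m, hm⟩ := Fin.exists_succAbove_eq ht
  refine ⟨⟨m, ?_⟩, ?_⟩
  · show (w (i.succAbove m)).1 = (w t).1
    rw [hm]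
  · apply hc
    rw [Finset.mem_image]
    exact ⟨m, Finset.mem_univ _, by rw [hm]⟩

/-- Evidence: a hash point, a list of (cell, hash value), a candidate. -/
abbrev Ev (p q r : ℕ) := ZMod p × (Fin r → Fin q × ZMod p) × Fin q

def side {p k q r : ℕ} (D : Ev p q r) (t : Fin q) (b : Base p k) : Prop :=
  (∀ m, (D.2.1 m).1 = t → hash D.1 b.1 = (D.2.1 m).2) ∧
  (t = D.2.2 ∨ ∃ m, (D.2.1 m).1 ≠ t ∧ ∀ z, Im b z → hash D.1 z ≠ (D.2.1 m).2)

theorem side_leader {p k q r : ℕ} (D : Ev p q r) (w : Fin q → Base p k)
    (hw : ∀ t, side D t (w t)) (j : Fin q) (hj : ∀ t, t ≠ j → dom (w j) (w t)) : j = D.2.2 := by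
  rcases (hw j).2 with h | ⟨m, hm1, hm2⟩
  · exact h
  · exfalso
    have h1 := (hw (D.2.1 m).1).1 m rfl
    exact hm2 _ (hj _ hm1) h1

theorem side_exists {p k q r : ℕ} [Fact p.Prime] (hp : p ≠ 2) (hq : 1 ≤ q) (hqr : q < 2 ^ r)
    (hpq : (q * q * k) * k < p) (w : Fin q → Base p k) :
    ∃ D : Ev p q r, ∀ t, side D t (w t) := by
  classical
  -- domination
  obtain ⟨L, i0, -, -, hL⟩ := dominating (fun t j : Fin q => ¬ Im (w j) (w t).1)
    (by
      intro t j _
      by_contra hcon
      push Not at hcon
      exact dom_antisymm hp (w t) (w j) hcon.2 hcon.1) r Finset.univ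
    ⟨⟨0, by omega⟩, Finset.mem_univ _⟩ (by simpa using hqr)
  -- hash point
  let F : Fin q × Fin q × Fin k → Finset (ZMod p) := fun x =>
    if (w x.1).1 = (w x.2.1).2 x.2.2 then ∅ else
      Finset.univ.filter (fun y : ZMod p => hash y (w x.1).1 = hash y ((w x.2.1).2 x.2.2))
  have hF : ∀ x, (F x).card ≤ k := by
    intro x
    simp only [F]
    split_ifs with h
    · simp
    · exact hash_coll _ _ h
  obtain ⟨y, hy⟩ : ∃ y : ZMod p, y ∉ Finset.univ.biUnion F := by
    by_contra hcon
    push Not at hcon
    have h1 : (Finset.univ.biUnion F) = Finset.univ := Finset.eq_univ_iff_forall.mpr hcon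
    have h2 : (Finset.univ.biUnion F).card ≤ ∑ x : Fin q × Fin q × Fin k, (F x).card :=
      Finset.card_biUnion_le
    have h3 : ∑ x : Fin q × Fin q × Fin k, (F x).card ≤ ∑ x : Fin q × Fin q × Fin k, k :=
      Finset.sum_le_sum (fun x _ => hF x)
    have h4 : ∑ x : Fin q × Fin q × Fin k, k = (q * q * k) * k := by
      rw [Finset.sum_const, Finset.card_univ]
      simp only [Fintype.card_prod, Fintype.card_fin, smul_eq_mul]
      ring
    rw [h1, Finset.card_univ, ZMod.card] at h2
    omega
  have hy' : ∀ (t j : Fin q) (z : Fin k → ZMod p), Im (w j) z → (w t).1 ≠ z →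
      hash y (w t).1 ≠ hash y z := by
    intro t j z hz hne h
    obtain ⟨m, hm⟩ := hz.1
    apply hy
    rw [Finset.mem_biUnion]
    refine ⟨(t, j, m), Finset.mem_univ _, ?_⟩
    simp only [F]
    rw [if_neg (by rw [hm]; exact hne), Finset.mem_filter, hm]
    exact ⟨Finset.mem_univ _, h⟩
  refine ⟨(y, (fun m => (L m, hash y (w (L m)).1)), i0), ?_⟩
  intro t
  refine ⟨?_, ?_⟩
  · intro m hm
    have hm' : L m = t := hm
    show hash y (w t).1 = hash y (w (L m)).1
    rw [hm']
  · by_cases ht : t = i0
    · left; exact ht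
    · right
      obtain ⟨m, hm1, hm2⟩ := hL t (Finset.mem_univ _) ht
      refine ⟨m, hm1, ?_⟩
      intro z hz h
      refine hy' (L m) t z hz ?_ h.symm
      intro h'
      apply hm2
      rw [h']
      exact hz

end Pool.Agent.H348Z.Box
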