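import Pool.Agent.H348Z.Box.Gadget

set_option autoImplicit false

namespace Pool.Agent.H348Z.Box

open Finset

theorem exps (P k r G b c : ℕ) :
    ((2 ^ P) ^ k * ((2 ^ P) ^ k) ^ k) *
      (2 ^ b * ((2 ^ b) ^ G * (2 ^ P * (((2 ^ c) * 2 ^ P) ^ r * 2 ^ c)) ^ G))
      = 2 ^ ((P * k + P * k * k) + (b + (b * G + (P + ((c + P) * r + c)) * G))) := by
  simp only [← pow_mul, ← pow_add]

/-- For `d ≤ 8 ^ a` there is a gadget with `d * card A ≤ 2 ^ (32 a ^ 2 4 ^ a)`. -/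
theorem gadget_exists (a d : ℕ) (ha : 1 ≤ a) (hd : d ≤ 8 ^ a) :
    ∃ (A : Type) (_ : Fintype A) (_ : Nonempty A), Gadget (Fin d) A ∧
      d * Fintype.card A ≤ 2 ^ (32 * a ^ 2 * 4 ^ a) := by
  classical
  obtain ⟨p, hpr, hp1, hp2⟩ := Nat.exists_prime_lt_and_le_two_mul (2 ^ (4 * a)) (by positivity)
  haveI : Fact p.Prime := ⟨hpr⟩
  have hq2 : 2 ≤ 2 ^ a := by
    calc 2 = 2 ^ 1 := by norm_num
      _ ≤ 2 ^ a := Nat.pow_le_pow_right (by norm_num) ha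
  obtain ⟨k, hk⟩ : ∃ k : ℕ, k + 1 = 2 ^ a := ⟨2 ^ a - 1, by omega⟩
  have h4 : 2 ^ (4 * a) = (k + 1) ^ 4 := by rw [hk, ← pow_mul, mul_comm]
  have hG : 4 ^ a = (k + 1) ^ 2 := by
    rw [hk, ← pow_mul, mul_comm, pow_mul]
    norm_num
  have h8 : 8 ^ a = 4 ^ a * (k + 1) := by
    rw [hk, ← mul_pow]
    norm_num
  have hk1 : 1 ≤ k := by omega
  have hpq : ((k + 1) * (k + 1) * k) * k < p := by
    refine lt_of_le_of_lt ?_ hp1
    rw [h4]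
    calc ((k + 1) * (k + 1) * k) * k ≤ ((k + 1) * (k + 1) * (k + 1)) * (k + 1) := by
          gcongr <;> omega
      _ = (k + 1) ^ 4 := by ring
  have hkp : k < p := by
    refine lt_of_le_of_lt ?_ hpq
    calc k = 1 * k := by ring
      _ ≤ ((k + 1) * (k + 1) * k) * k := by
        gcongr
        exact Nat.one_le_iff_ne_zero.2 (by positivity)
  have hp2' : p ≠ 2 := by
    have : 4 ≤ ((k + 1) * (k + 1) * k) * k := by
      calc 4 = ((1 + 1) * (1 + 1) * 1) * 1 := by norm_num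
        _ ≤ _ := by gcongr
    omega
  have hr : k + 1 < 2 ^ (a + 1) := by
    rw [hk, pow_succ]
    omega
  have hgad := gadget_of_leader (Base := Base p k) (Ev := Ev p (k + 1) (a + 1)) (k + 1) (4 ^ a) (8 ^ a)
    (by omega) (le_of_eq h8.symm) dom (dom_antisymm hp2') (dom_exists hp2' hkp) side
    (fun D => D.2.2) side_leader (side_exists hp2' (by omega) hr hpq)
  have h8pos : 0 < 8 ^ a := by positivity
  haveI : Nonempty (Fin (8 ^ a)) := ⟨⟨0, h8pos⟩⟩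
  obtain ⟨ι⟩ : Nonempty (Fin d ↪ Fin (4 ^ a) × Fin (k + 1)) :=
    Function.Embedding.nonempty_of_card_le (by simpa [← h8] using hd)
  refine ⟨_, inferInstance, inferInstance, hgad.restrict ι ι.injective, ?_⟩
  have hcard : Fintype.card (Base p k × Fin (8 ^ a) × (Fin (4 ^ a) → Fin (8 ^ a)) ×
      (Fin (4 ^ a) → Ev p (k + 1) (a + 1))) = (p ^ k * (p ^ k) ^ k) *
      (8 ^ a * ((8 ^ a) ^ (4 ^ a) *
        (p * (((k + 1) * p) ^ (a + 1) * (k + 1))) ^ (4 ^ a))) := by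
    simp only [Base, Ev, Fintype.card_prod, Fintype.card_fun, Fintype.card_fin, ZMod.card]
  have hpP : p ≤ 2 ^ (4 * a + 1) := by
    rw [pow_succ]
    omega
  have h83 : 8 ^ a = 2 ^ (3 * a) := by
    rw [pow_mul]
    norm_num
  calc d * Fintype.card _ ≤ 2 ^ (3 * a) *
        (((2 ^ (4 * a + 1)) ^ k * ((2 ^ (4 * a + 1)) ^ k) ^ k) *
        (2 ^ (3 * a) * ((2 ^ (3 * a)) ^ (4 ^ a) * (2 ^ (4 * a + 1) *
          (((2 ^ a) * 2 ^ (4 * a + 1)) ^ (a + 1) * 2 ^ a)) ^ (4 ^ a)))) := by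
        rw [hcard, hk, ← h83]
        gcongr
    _ ≤ 2 ^ (32 * a ^ 2 * 4 ^ a) := by
        rw [exps, ← pow_add]
        apply Nat.pow_le_pow_right (by norm_num)
        have hG1 : 1 ≤ 4 ^ a := Nat.one_le_pow _ _ (by norm_num)
        have hkk : k + k * k ≤ 4 ^ a := by
          rw [hG]
          nlinarith
        generalize 4 ^ a = G at hG1 hkk ⊢
        have e1 : (4 * a + 1) * k + (4 * a + 1) * k * k ≤ (4 * a + 1) * G := by
          calc (4 * a + 1) * k + (4 * a + 1) * k * k = (4 * a + 1) * (k + k * k) := by ring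
            _ ≤ _ := by gcongr
        have e2 : 3 * a ≤ 3 * a * G := Nat.le_mul_of_pos_right _ hG1
        have e3 : 5 * a ^ 2 + 24 * a + 3 ≤ 32 * a ^ 2 := by nlinarith
        have e4 : (5 * a ^ 2 + 24 * a + 3) * G ≤ 32 * a ^ 2 * G := Nat.mul_le_mul_right _ e3
        nlinarith

/-- The explicit bound with powers of two. -/
theorem part_bound (a d : ℕ) (ha : 1 ≤ a) (hd : d ≤ 8 ^ a) :
    ∃ M : ℕ, ∀ k n : ℕ, 1 ≤ k → M * k ≤ n →
      ∃ P, GoodPart d n k P ∧ P.card ≤ 2 ^ (32 * a ^ 2 * 4 ^ a) * k + M := by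
  obtain ⟨A, _, _, hg, hc⟩ := gadget_exists a d ha hd
  refine ⟨Fintype.card A + Fintype.card A ^ d, fun k n hk hn => ?_⟩
  obtain ⟨P, hP, hcard⟩ := part_of_gadget hg k n hk
    (le_trans (Nat.mul_le_mul_right _ (Nat.le_add_right _ _)) hn)
  refine ⟨P, hP, hcard.trans ?_⟩
  have := Nat.mul_le_mul_right k hc
  omega

theorem cube_le (a : ℕ) (ha : 10 ≤ a) : a ^ 3 ≤ 2 ^ a := by
  induction a, ha using Nat.le_induction with
  | base => norm_num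
  | succ a ha ih =>
    have h1 : (a + 1) ^ 3 ≤ 2 * a ^ 3 := by
      have : 10 * a ^ 2 ≤ a ^ 3 := by nlinarith [Nat.mul_le_mul_right (a ^ 2) ha]
      nlinarith
    calc (a + 1) ^ 3 ≤ 2 * a ^ 3 := h1
      _ ≤ 2 * 2 ^ a := by omega
      _ = 2 ^ (a + 1) := by ring

theorem exists_scale (c : ℝ) (hc : 1 < c) (D : ℕ) :
    ∃ a : ℕ, 1 ≤ a ∧ D ≤ 8 ^ a ∧ (2 : ℝ) ^ (32 * a ^ 2 * 4 ^ a) + 1 ≤ c ^ (8 ^ a) := by
  obtain ⟨m, hm⟩ := pow_unbounded_of_one_lt (2 : ℝ) hc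
  refine ⟨10 + 33 * m + D, by omega, ?_, ?_⟩
  · have : 10 + 33 * m + D < 8 ^ (10 + 33 * m + D) := Nat.lt_pow_self (by norm_num)
    omega
  · generalize ha : 10 + 33 * m + D = a
    have h1 := cube_le a (by omega)
    have hE : m * (32 * a ^ 2 * 4 ^ a + 1) ≤ 8 ^ a := by
      have hG1 : 1 ≤ 4 ^ a := Nat.one_le_pow _ _ (by norm_num)
      have ha1 : 1 ≤ a ^ 2 := Nat.one_le_pow _ _ (by omega)
      have h8 : 8 ^ a = 2 ^ a * 4 ^ a := by rw [← mul_pow]; norm_num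
      have h2 : 1 ≤ a ^ 2 * 4 ^ a := Nat.one_le_iff_ne_zero.2 (by positivity)
      have h3 : 33 * m ≤ a := by omega
      calc m * (32 * a ^ 2 * 4 ^ a + 1) ≤ m * (32 * a ^ 2 * 4 ^ a + a ^ 2 * 4 ^ a) := by gcongr
        _ = (33 * m) * a ^ 2 * 4 ^ a := by ring
        _ ≤ a * a ^ 2 * 4 ^ a := by gcongr
        _ = a ^ 3 * 4 ^ a := by ring
        _ ≤ 2 ^ a * 4 ^ a := by gcongr
        _ = 8 ^ a := h8.symm
    generalize 32 * a ^ 2 * 4 ^ a = E at hE ⊢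
    have h5 : (1 : ℝ) ≤ 2 ^ E := one_le_pow₀ (by norm_num)
    calc (2 : ℝ) ^ E + 1 ≤ 2 ^ (E + 1) := by rw [pow_succ]; linarith
      _ ≤ (c ^ m) ^ (E + 1) := by gcongr
      _ = c ^ (m * (E + 1)) := by rw [← pow_mul]
      _ ≤ c ^ (8 ^ a) := pow_le_pow_right₀ hc.le hE

theorem not_exponential :
    ¬ (∃ c : ℝ, 1 < c ∧ ∃ D : ℕ, ∀ d : ℕ, D ≤ d → ∃ K : ℕ, ∀ k : ℕ, K ≤ k →
      ∃ N : ℕ, ∀ n : ℕ, N ≤ n →
        ∀ P : Finset (Fin d → Finset (Fin n)), GoodPart d n k P →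
          c ^ d * (k : ℝ) ≤ (P.card : ℝ)) := by
  rintro ⟨c, hc, D, H⟩
  obtain ⟨a, ha, hD, hca⟩ := exists_scale c hc D
  obtain ⟨K, hK⟩ := H (8 ^ a) hD
  obtain ⟨M, hM⟩ := part_bound a (8 ^ a) ha le_rfl
  obtain ⟨N, hN⟩ := hK (K + M + 1) (by omega)
  obtain ⟨P, hP, hcard⟩ := hM (K + M + 1) (N + M * (K + M + 1)) (by omega) (by omega)
  have h1 := hN _ (by omega) P hP
  have h2 : (P.card : ℝ) ≤ 2 ^ (32 * a ^ 2 * 4 ^ a) * ((K + M + 1 : ℕ) : ℝ) + M := by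
    exact_mod_cast hcard
  have h3 : (M : ℝ) < ((K + M + 1 : ℕ) : ℝ) := by
    exact_mod_cast (by omega : M < K + M + 1)
  have h4 : (0 : ℝ) ≤ ((K + M + 1 : ℕ) : ℝ) := by positivity
  have h5 := mul_le_mul_of_nonneg_right hca h4
  nlinarith

theorem explicit_bound (d : ℕ) (hd : 2 ≤ d) :
    ∃ M : ℕ, ∀ k n : ℕ, 1 ≤ k → M * k ≤ n →
      ∃ P, GoodPart d n k P ∧
        (P.card : ℝ) ≤ Real.exp (400 * (d : ℝ) ^ ((2 : ℝ) / 3) * Real.log d ^ 2) * k + M := by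
  have ha : 1 ≤ Nat.clog 8 d := Nat.clog_pos (by norm_num) hd
  have hd8 : d ≤ 8 ^ Nat.clog 8 d := Nat.le_pow_clog (by norm_num) d
  have hlt : 8 ^ (Nat.clog 8 d - 1) < d := by
    have := Nat.pow_pred_clog_lt_self (b := 8) (by norm_num) (x := d) hd
    simpa using this
  obtain ⟨b, hb⟩ : ∃ b, Nat.clog 8 d = b + 1 := ⟨Nat.clog 8 d - 1, by omega⟩
  rw [hb] at hd8 ha
  rw [hb, Nat.add_sub_cancel] at hlt
  obtain ⟨M, hM⟩ := part_bound (b + 1) d ha hd8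
  refine ⟨M, fun k n hk hn => ?_⟩
  obtain ⟨P, hP, hcard⟩ := hM k n hk hn
  refine ⟨P, hP, ?_⟩
  have h2 : (P.card : ℝ) ≤ 2 ^ (32 * (b + 1) ^ 2 * 4 ^ (b + 1)) * (k : ℝ) + M := by
    exact_mod_cast hcard
  refine h2.trans ?_
  gcongr
  have hdR : (2 : ℝ) ≤ d := by exact_mod_cast hd
  have hltR : (8 : ℝ) ^ b ≤ d := by exact_mod_cast hlt.le
  have hl2 := Real.log_two_gt_d9
  have hl2' := Real.log_two_lt_d9
  have hlogd : Real.log 2 ≤ Real.log d := Real.log_le_log (by norm_num) hdR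
  have hb1 : (b : ℝ) * (3 * Real.log 2) ≤ Real.log d := by
    have h8 : Real.log 8 = 3 * Real.log 2 := by
      rw [show (8 : ℝ) = 2 ^ 3 by norm_num, Real.log_pow]
      norm_num
    rw [← h8, ← Real.log_pow]
    exact Real.log_le_log (by positivity) hltR
  have hb0 : (0 : ℝ) ≤ b := by positivity
  have hb2 : (b : ℝ) + 1 ≤ 2 * Real.log d := by nlinarith
  have h4 : (4 : ℝ) ^ b ≤ (d : ℝ) ^ ((2 : ℝ) / 3) := by
    have e : (4 : ℝ) ^ b = ((8 : ℝ) ^ b) ^ ((2 : ℝ) / 3) := by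
      rw [show (8 : ℝ) = 2 ^ 3 by norm_num, show (4 : ℝ) = 2 ^ 2 by norm_num, ← pow_mul, ← pow_mul,
        ← Real.rpow_natCast, ← Real.rpow_natCast, ← Real.rpow_mul (by norm_num)]
      congr 1
      push_cast
      ring
    rw [e]
    exact Real.rpow_le_rpow (by positivity) hltR (by norm_num)
  have e2 : (2 : ℝ) ^ (32 * (b + 1) ^ 2 * 4 ^ (b + 1))
      = Real.exp (((32 * (b + 1) ^ 2 * 4 ^ (b + 1) : ℕ) : ℝ) * Real.log 2) := by
    rw [Real.exp_nat_mul, Real.exp_log (by norm_num)]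
  rw [e2]
  apply Real.exp_le_exp.2
  push_cast
  have h6 : ((b : ℝ) + 1) ^ 2 ≤ (2 * Real.log d) ^ 2 := by gcongr
  have h7 : (0 : ℝ) ≤ (d : ℝ) ^ ((2 : ℝ) / 3) := by positivity
  calc 32 * ((b : ℝ) + 1) ^ 2 * 4 ^ (b + 1) * Real.log 2
      ≤ 32 * (2 * Real.log d) ^ 2 * ((d : ℝ) ^ ((2 : ℝ) / 3) * 4) * 0.7 := by
        rw [pow_succ (4 : ℝ) b]
        gcongr
        linarith
    _ = 358.4 * ((d : ℝ) ^ ((2 : ℝ) / 3) * Real.log d ^ 2) := by ring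
    _ ≤ 400 * ((d : ℝ) ^ ((2 : ℝ) / 3) * Real.log d ^ 2) := by gcongr; norm_num
    _ = _ := by ring

end Pool.Agent.H348Z.Box
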